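import Pool.Agent.Lib.MP_f00570_lc.S.Defs

/-!
# Local preservation of stationary sets at one ordinal
-/

namespace Pool.Agent.Lib.MP_f00570_lc

open Pool.Agent.Lib.MP_f9eb18_lc Pool.Agent.Lib.MP_f9eb18_lc.W Ordinal ZFSet

/-- Preservation of stationary sets at `η`: there is `S ∈ N`, a set of points below `η` of small
cofinality in `N`, stationary in `η` in `N`, such that every `T ∈ N`, `T ⊆ S`, that is stationary
in `η` in `N` is stationary in `η` in the universe. -/
def PresAt (N : Set V) (η : Ordinal.{0}) : Prop :=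
  ∃ S ∈ N, (∀ x ∈ S, ∃ ζ < η, x = ζ.toZFSet ∧ SmCof N ζ) ∧ Stat N S η ∧
    ∀ T ∈ N, T ⊆ S → Stat N T η → Stat Set.univ T η

end Pool.Agent.Lib.MP_f00570_lc
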