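import Pool.Agent.Lib.MP_f00570_lc.T.Defs
import Pool.Agent.Lib.MP_f00570_lc.S.I

/-!
# Local models
-/

namespace Pool.Agent.Lib.MP_f00570_lc

open Pool.Agent.Lib.MP_f9eb18_lc Pool.Agent.Lib.MP_f9eb18_lc.W Ordinal ZFSet
set_option linter.style.haveILetI false
set_option linter.unusedVariables false

/-- the standing assumptions on `N`, `M`, `z`, for a model `N` that reaches `lam` -/
structure Ctx3 (N : Set V) (M z : V) (lam : Ordinal.{0}) : Prop where
  ord : ∀ o ≤ lam, o.toZFSet ∈ N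
  om1 : omega1Z ⊆ M
  sm : Sm M
  iu : ∀ x : Set V, x.Countable → x ⊆ M → ∃ y ∈ M, (y : Set V).Countable ∧ x ⊆ y
  gN : ∀ d ∈ N, d ⊆ z → ∃ e ∈ M, ∀ t ∈ M, (t ∈ e ↔ t ∈ d)

/-- the set `N` is a model with few traces and preservation up to `lam` -/
def GdM (N : V) (lam : Ordinal.{0}) : Prop :=
  IsZFC (N : Set V) ∧ lam.toZFSet ∈ N ∧
    (∀ x : V, Ctbl Set.univ x → ∃ T : V, Sm T ∧ ∀ d ∈ N, d ∩ x ∈ T) ∧
    ∀ η ≤ lam, SmCof Set.univ η → ¬ CofW Set.univ η → PresAt (N : Set V) η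

/-- the inner model built from the good models `N` with `N ∩ V_{ω₂} = A` -/
def KA (A : V) : Set V :=
  {y | ∃ α : Ordinal.{0}, ∀ lam : Ordinal.{0}, α < lam → Reg lam → ∀ N : V, GdM N lam →
    Vs (N : Set V) (ω_ 2) = A → y ∈ Kl (N : Set V) lam}

section
variable {C : Set V} [Z0 C] {D : Set V → (ℕ → V) → Set V} [UC (par C) D]
  {a b : Set V → (ℕ → V) → V} {o : Set V → (ℕ → V) → Ordinal.{0}}
instance ud_apx3 [UF (par C) a] : UD (par C) (fun M v => Apx (D M v) (a M v)) := by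
  have := UC.lift (F := par C) D; have := UF.lift (F := par C) a; unfold Apx; infer_instance
instance ud_smCof3 [UF (par C) o] : UD (par C) (fun M v => SmCof (D M v) (o M v)) :=
  haveI := UF.lift (F := par C) o
  (inferInstance : UD (par C) (fun M v => ∃ b ∈ D M v, Sm b ∧ AccPt b (o M v))).congr
    fun _ _ _ _ => by simp only [SmCof, sm_iff]
instance ud_ecl3 [UF (par C) o] [UF (par C) a] :
    UD (par C) (fun M v => Ecl (D M v) (o M v) (a M v)) := by
  have := UC.lift (F := par C) D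
  have := UF.lift (F := par C) o; have := UF.lift (F := par C) a; unfold Ecl; infer_instance
instance ud_cod3 [UF (par C) o] [UF (par C) a] [UF (par C) b] :
    UD (par C) (fun M v => Cod (D M v) (o M v) (a M v) (b M v)) := by
  have := UC.lift (F := par C) D
  have := UF.lift (F := par C) o; have := UF.lift (F := par C) a; have := UF.lift (F := par C) b
  unfold Cod; infer_instance
instance ud_kl3 [UF (par C) o] [UF (par C) a] :
    UD (par C) (fun M v => a M v ∈ Kl (D M v) (o M v)) := by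
  have := UC.lift (F := par C) D
  have := UF.lift (F := par C) o; have := UF.lift (F := par C) a
  simp only [Kl, Set.mem_ofPred_eq]; infer_instance
instance ud_presAt [UF (par C) o] : UD (par C) (fun M v => PresAt (D M v) (o M v)) := by
  have := UC.lift (F := par C) D; have := UF.lift (F := par C) o
  unfold PresAt; infer_instance
omit [UC (par C) D] in
instance ud_gdM [UF (par C) o] [UF (par C) a] :
    UD (par C) (fun M v => GdM (a M v) (o M v)) := by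
  have := UF.lift (F := par C) o; have := UF.lift (F := par C) a
  unfold GdM; infer_instance
end

theorem uc_ka {C : Set V} [Z0 C] {A : V} [In C A] [In C (ω_ 2 : Ordinal.{0})] :
    UC (par C) (fun _ _ => KA A) :=
  ⟨fun _ e _ _ => e ▸ Set.subset_univ _, by
    simp only [KA, Set.mem_ofPred_eq]; infer_instance⟩

/-- reflecting sets exist for all parameters; the model `N` may vary -/
def HasRefl3 (K : Set V) : Prop := ∀ (l : List V) (γ : Ordinal.{0}),
  ∃ (N : Set V) (_ : IsZFC N) (M : V) (_ : ES M) (_ : UC (par M) (fun _ _ => K)),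
    (∀ o < ω_ 2, o.toZFSet ∈ N) ∧ (∀ x ∈ l, x ∈ M) ∧ Refl0 N K M γ ∧ ∀ o < γ, M ∩ o.toZFSet ∈ K

theorem Reg.omega2 {lam : Ordinal.{0}} (hl : Reg lam) : ω_ 2 < lam :=
  not_le.1 fun k => hl.1 ⟨_, fun β hβ => sm_iff.2 (d1_lt.1 hβ), k⟩

theorem tg_pi {M : V} [ES M] (h : Sm M) {o : Ordinal.{0}} (ho : o.toZFSet ∈ M) :
    (pi M o.toZFSet).rank < ω_ 2 := by
  refine d1_lt.2 ?_
  haveI : In Set.univ M := ⟨trivial⟩
  rw [← pi_ord ho]
  refine (card_mono fun t ht => ?_ : _ ≤ (tcol M).card).trans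
    (sm_iff.1 ((z6a_injIn_img Set.univ (a := M) trivial _).trans h))
  obtain ⟨x, hx, -, rfl⟩ := (mem_pi ho).1 ht
  exact pi_mem_tcol hx

theorem tg_cof {b : V} {η : Ordinal.{0}} (hA : AccPt b η) : η.cof ≤ b.card := by
  have h1 : IsCofinal {x : Set.Iio η | x.1.toZFSet ∈ b} := fun x => by
    obtain ⟨y, k1, k2, k3⟩ := hA.2 x.1 x.2
    exact ⟨⟨y, k1⟩, k3, k2.le⟩
  have h2 := Order.cof_le h1
  have h3 : Cardinal.mk {x : Set.Iio η | x.1.toZFSet ∈ b} ≤ Cardinal.mk b :=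
    Cardinal.mk_le_of_injective (f := fun x => ⟨x.1.1.toZFSet, x.2⟩) fun x y e =>
      Subtype.ext (Subtype.ext (toZFSet_injective (congrArg Subtype.val e)))
  rw [cof_Iio, ← lift_cof] at h2
  rw [cardinalMk_coe_sort] at h3
  exact Cardinal.lift_le.1 (h2.trans h3)

theorem tg_not_cofW {η : Ordinal.{0}} (h : Cardinal.aleph0 < η.cof) : ¬ CofW Set.univ η :=
  fun ⟨b, _, ⟨f, _, hf⟩, hA⟩ => absurd h (not_lt.2 ((tg_cof hA).trans
    ((card_le_of_isInj hf).trans (by simp [omegaZ, card_toZFSet]))))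

theorem tg_cof1 {η : Ordinal.{0}} (h : SmCof Set.univ η) (h' : ¬ CofW Set.univ η) :
    η.cof = Cardinal.aleph 1 := by
  obtain ⟨b, -, h1, h2⟩ := h
  refine sg2_cof h1 h2 (lt_of_not_ge fun k => h' ?_)
  obtain ⟨c, -, k1, k2⟩ := b2_cof h2 k
  exact ⟨c, trivial, ctbl_univ.2 k1, k2⟩

theorem GdM.ctx {N z M : V} {lam : Ordinal.{0}} (h : GdM N lam) {op : List V → Set V} [ES M]
    (hN : N ∈ M) (hM : GSet z op M) : Ctx3 (N : Set V) M z lam := by
  haveI := h.1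
  haveI : In (M : Set V) N := ⟨hN⟩
  refine ⟨fun o ho => IsZ.ord_mem_of_le (N : Set V) h.2.1 ho, hM.om1, sm_iff.2 hM.card, hM.iu,
    fun d hd hz => hM.guess d hz fun x hx hc => ?_⟩
  haveI : In (M : Set V) x := ⟨hx⟩
  obtain ⟨T, hT, h1, h2⟩ := ex_mem M (fun T => Sm T ∧ ∀ d ∈ N, d ∩ x ∈ T)
    (h.2.2.1 x (ctbl_univ.2 hc))
  exact sm_subset hM.om1 hT h1 (h2 d hd)

theorem tg_ud (N : Set V) [IsZFC N] (hω : (ω_ 2 : Ordinal.{0}).toZFSet ∈ N)
    (o : Set V → (ℕ → V) → Ordinal.{0}) [UF (loc N) o] :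
    UD (loc N) (fun M v => SmCof N (o M v)) :=
  haveI : In N (ω_ 2 : Ordinal.{0}) := ⟨hω⟩
  haveI := UF.lift (F := loc N) o
  (inferInstance : UD (loc N) (fun M v =>
    ∃ b ∈ N, (∃ β < ω_ 2, InjIn N b β.toZFSet) ∧ AccPt b (o M v))).congr fun _ _ _ _ =>
      exists_congr fun _ => and_congr_right fun hb =>
        and_congr_left' (sm_iff.symm.trans (smN_iff N hb))

theorem exists_ladder3 (N : Set V) [IsZFC N] (hω : (ω_ 2 : Ordinal.{0}).toZFSet ∈ N)
    {lam : Ordinal.{0}} (hl : lam.toZFSet ∈ N) : ∃ G ∈ N, ∀ ζ < lam, SmCof N ζ →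
      Sm (app G ζ.toZFSet) ∧ AccPt (app G ζ.toZFSet) ζ := by
  haveI : In N (ω_ 2 : Ordinal.{0}) := ⟨hω⟩
  haveI := tg_ud N hω fun _ v => (vr (tl v) 0).rank
  obtain ⟨G, hG, -, -, k⟩ := choice_fn N
    (fun x y => SmCof N x.rank → (∃ β < ω_ 2, InjIn N y β.toZFSet) ∧ AccPt y x.rank) hl
    fun x _ => by
      by_cases h1 : SmCof N x.rank
      · exact h1.imp fun _ k => ⟨k.1, fun _ => ⟨(smN_iff N k.1).1 (sm_iff.2 k.2.1), k.2.2⟩⟩
      · exact ⟨∅, IsZ.empty_mem N, fun h2 => absurd h2 h1⟩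
  refine ⟨G, hG, fun ζ h1 h2 => ?_⟩
  have h3 := k _ (toZFSet_mem_toZFSet_iff.2 h1)
  rw [rank_toZFSet] at h3
  obtain ⟨⟨β, h4, h5⟩, h6⟩ := h3 h2
  exact ⟨sg2_sm h4 h5, h6⟩

end Pool.Agent.Lib.MP_f00570_lc
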