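import Pool.Agent.Lib.MP_f00570_lc.T.G

/-!
# Universal codes and reflection for local models
-/

namespace Pool.Agent.Lib.MP_f00570_lc

open Pool.Agent.Lib.MP_f9eb18_lc Pool.Agent.Lib.MP_f9eb18_lc.W Ordinal ZFSet
set_option linter.style.haveILetI false
set_option linter.unusedVariables false
set_option linter.unusedSectionVars false

theorem th_wo (N : Set V) [IsT N] {A : V}
    (hA : A ∈ N) : ∃ w ∈ N, IsWO w A ∧ ∀ x ∈ A, ∀ y ∈ A, x ∈ y → wpos w x < wpos w y := by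
  obtain ⟨f, hf, hi⟩ := IsT.wo A hA
  rw [z3d_inj] at hi
  obtain ⟨hfn, hinj⟩ := isInj_iff.1 hi
  haveI : In N A := ⟨hA⟩
  haveI : In N f := ⟨hf⟩
  haveI : In N (Order.succ f.rank) := ⟨memV_of N _⟩
  generalize Order.succ f.rank = o at *
  have h3 : ∀ x ∈ A, (app f x).rank < o ∧ (app f x).rank.toZFSet = app f x := fun x hx => by
    obtain ⟨p, hp, e⟩ := mem_toZFSet_iff.1 ((isFunc_iff.1 hfn).2.2 x hx)
    rw [← e, rank_toZFSet]; exact ⟨hp, rfl⟩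
  have hW := (z4d_rel (A := A) (fun x => o * x.rank + (app f x).rank) fun x hx y hy e => by
    have e1 := congrArg (· % o) e
    simp only [Ordinal.mul_add_mod_self, Ordinal.mod_eq_of_lt (h3 x hx).1,
      Ordinal.mod_eq_of_lt (h3 y hy).1] at e1
    exact hinj x hx y hy (by rw [← (h3 x hx).2, e1, (h3 y hy).2])).1
  refine ⟨_, memV_of N _, hW, fun x hx y hy h => z4d_lt hW (pair_mem_rel.2 ⟨hx, hy, ?_⟩)
    fun e => ZFSet.mem_irrefl y (e ▸ h)⟩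
  calc o * x.rank + (app f x).rank ≤ o * (x.rank + 1) := by
        rw [mul_add_one]; exact add_le_add_right (h3 x hx).1.le _
    _ ≤ o * y.rank := mul_le_mul_right (Order.add_one_le_iff.2 (rank_lt_of_mem h)) o
    _ ≤ _ := le_self_add

/-- a code on a set of ordinals `s ∈ N` for an initial segment of `N ∩ V_γ` -/
theorem th_code (N : Set V) [IsZFC N] {γ : Ordinal.{0}} (hγ : γ.toZFSet ∈ N)
    {s : V} (hs : s ∈ N) : ∃ h : V → Ordinal.{0}, ∃ d ∈ N, d ⊆ memR s ∧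
      (∀ x ∈ Vs N γ, ∀ o < h x, ∃ y ∈ Vs N γ, h y = o) ∧
      (∀ y ∈ Vs N γ, ∀ b ∈ s, pi s b = (h y).toZFSet → col d b = y) ∧
      ∀ a b, pair a b ∈ d → ∃ x ∈ Vs N γ, ∃ y ∈ Vs N γ, pi s a = (h x).toZFSet ∧
        pi s b = (h y).toZFSet := by
  have hA : Vs N γ ∈ N := z2d_Vs_mem N _ hγ
  have tr : ∀ y ∈ Vs N γ, ∀ x ∈ y, x ∈ Vs N γ := fun y hy x hx => mem_Vs.2
    ⟨IsZ.trans y (mem_Vs.1 hy).1 x hx, (rank_lt_of_mem hx).trans (mem_Vs.1 hy).2⟩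
  generalize Vs N γ = A at hA tr ⊢
  obtain ⟨w, hw, hW, hlt⟩ := th_wo N hA
  haveI : In N A := ⟨hA⟩
  haveI : In N w := ⟨hw⟩
  haveI : In N s := ⟨hs⟩
  obtain ⟨d, hd⟩ : ∃ d, d = rel s s fun a b => a ∈ b ∧ ∃ x ∈ A, ∃ y ∈ A, x ∈ y ∧
    pi s a = (wpos w x).toZFSet ∧ pi s b = (wpos w y).toZFSet := ⟨_, rfl⟩
  have h1 : d ⊆ memR s := fun p hp => by
    obtain ⟨a, ha, b, hb, rfl, k, -⟩ := mem_rel.1 (hd ▸ hp)
    exact z4c_memR.2 ⟨ha, hb, k⟩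
  refine ⟨wpos w, d, by rw [hd]; exact memV_of N _, h1, fun x hx o ho => hW.wpos_surj hx ho,
    fun y => ?_, fun a b k => ?_⟩
  · induction y using mem_wf.induction with
    | _ y ih =>
      intro hy b hb e
      ext t
      rw [sh_mem h1]
      constructor
      · rintro ⟨a, k, rfl⟩
        obtain ⟨ha, -, -, x, hx, y', hy', k1, k2, k3⟩ := pair_mem_rel.1 (hd ▸ k)
        obtain rfl := hW.wpos_inj hy hy' (toZFSet_injective (e.symm.trans k3))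
        rwa [ih x k1 hx a ha k2]
      · intro ht
        have h2 := tr y hy t ht
        obtain ⟨a, ha, k1, k2⟩ := (mem_pi hb).1
          (e ▸ toZFSet_mem_toZFSet_iff.2 (hlt t h2 y hy ht))
        exact ⟨a, hd ▸ pair_mem_rel.2 ⟨ha, hb, k1, t, h2, y, hy, ht, k2, e⟩, ih t ht h2 a ha k2⟩
  · obtain ⟨-, -, -, x, hx, y, hy, -, k2, k3⟩ := pair_mem_rel.1 (hd ▸ k)
    exact ⟨x, hx, y, hy, k2, k3⟩

variable {N : Set V} {M z : V} [IsZFC N] [ES M] [UC (par M) (fun _ _ => N)] {lam γ : Ordinal.{0}}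

omit [UC (par M) (fun _ _ => N)] in
theorem Ctx3.inter_code (h : Ctx3 N M z lam) {E X : V} (hs : M ∩ X ∈ N) (hE : E ⊆ memR X)
    (hA : Apx N E) : E ∩ M ∈ N := by
  haveI : In N (M ∩ X) := ⟨hs⟩
  have h1 : prod (M ∩ X) (M ∩ X) ⊆ M := fun p hp => by
    obtain ⟨a, ha, b, hb, rfl⟩ := mem_prod.1 hp
    exact c1_pair (mem_inter.1 ha).1 (mem_inter.1 hb).1
  have e : E ∩ M = E ∩ prod (M ∩ X) (M ∩ X) := by
    ext p
    rw [mem_inter, mem_inter]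
    refine and_congr_right fun k => ⟨fun k1 => ?_, fun k1 => h1 k1⟩
    obtain ⟨a, ha, b, hb, rfl, -⟩ := mem_rel.1 (hE k)
    exact pair_mem_prod.2 ⟨mem_inter.2 ⟨(c1_unpair k1).1, ha⟩, mem_inter.2 ⟨(c1_unpair k1).2, hb⟩⟩
  exact e ▸ hA _ (memV_of N _) (c1_sm h.sm h1)

theorem Ctx3.mem_of_cod (h : Ctx3 N M z lam) (hM : lam.toZFSet ∈ M) {e y : V} (he : e ∈ M)
    (hs : M ∩ e ∈ N) (hy : y ∈ M) (hc : Cod N lam e y) : pi M y ∈ N := by
  haveI : In (M : Set V) lam := ⟨hM⟩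
  haveI : In (M : Set V) e := ⟨he⟩
  haveI : In (M : Set V) y := ⟨hy⟩
  obtain ⟨E, hE, h1, h2, h3⟩ := ex_mem M (fun E => E ⊆ memR (insert lam.toZFSet e) ∧ Apx N E ∧
    ∃ ξ : Ordinal.{0}, y = col E ξ.toZFSet) hc
  haveI : In (M : Set V) E := ⟨hE⟩
  obtain ⟨ξ, hξ, rfl⟩ := ex_ord M (fun ξ => y = col E ξ.toZFSet) h3
  haveI : In N (M ∩ e) := ⟨hs⟩
  haveI : In N lam := ⟨h.ord _ le_rfl⟩
  have e1 : M ∩ insert lam.toZFSet e = insert lam.toZFSet (M ∩ e) := by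
    ext t; simp only [mem_inter, mem_insert_iff]
    exact ⟨fun k => k.2.imp id fun j => ⟨k.1, j⟩, fun k => k.elim
      (fun j => ⟨j ▸ hM, Or.inl j⟩) fun j => ⟨j.1, Or.inr j.2⟩⟩
  haveI : In N (E ∩ M) := ⟨h.inter_code (e1 ▸ memV_of N _) h1 h2⟩
  rw [sh_pi_col hE h1 _ hξ]
  by_cases k : ξ.toZFSet ∈ insert lam.toZFSet (M ∩ e)
  · haveI : In N ξ := ⟨IsZ.trans _ (memV_of N _) _ k⟩
    exact memV_of N _
  · have e2 : col (E ∩ M) ξ.toZFSet = ∅ := (ZFSet.eq_empty _).2 fun t ht => by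
      obtain ⟨a, j, -⟩ := c1_col ht
      exact k (e1 ▸ mem_inter.2 ⟨hξ, (z4c_memR.1 (h1 (mem_inter.1 j).1)).2.1⟩)
    exact e2 ▸ IsZ.empty_mem N

/-- the universal code on a carrier -/
theorem Ctx3.univ_code (h : Ctx3 N M z lam) (hl : Reg lam) (hγ : γ.toZFSet ∈ M)
    (hz : prod lam.toZFSet lam.toZFSet ⊆ z) (hκ : (vonNeumann γ).card < lam.card) {e : V}
    (he : e ∈ M) (h1 : e ⊆ lam.toZFSet) (h2 : AccPt e lam) (hs : M ∩ e ∈ N) :
    ∃ u ∈ M, u ⊆ memR e ∧ Apx N u ∧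
      (∀ t ∈ N, t.rank < (pi M γ.toZFSet).rank → ∃ a ∈ M ∩ e, pi M (col u a) = t) ∧
      (∀ a, a ∈ dom u → ∀ b, b ∈ dom u → col u a = col u b → a = b) ∧
      ∀ b, b ∈ ran u → (col u b).rank < γ := by
  obtain ⟨f, d, hd, d1, f1, f2, f3⟩ := th_code N (h.ord _ ((tg_pi h.sm hγ).trans hl.omega2).le) hs
  set s := M ∩ e with es
  have so : ∀ a ∈ s, a.IsOrdinal := fun a ha =>
    (isOrdinal_toZFSet lam).mem (h1 (mem_inter.1 ha).2)
  have d2 : ∀ p ∈ d, p ∈ M ∧ p ∈ memR e ∧ p ∈ z := fun p hp => by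
    obtain ⟨a, ha, b, hb, rfl, k⟩ := mem_rel.1 (d1 hp)
    obtain ⟨a1, a2⟩ := mem_inter.1 ha
    obtain ⟨b1, b2⟩ := mem_inter.1 hb
    exact ⟨c1_pair a1 b1, z4c_memR.2 ⟨a2, b2, k⟩, hz (pair_mem_prod.2 ⟨h1 a2, h1 b2⟩)⟩
  obtain ⟨u, hu, H⟩ := h.gN d hd fun p hp => (d2 p hp).2.2
  haveI : In (M : Set V) u := ⟨hu⟩
  haveI : In (M : Set V) e := ⟨he⟩
  haveI : In (M : Set V) γ := ⟨hγ⟩
  haveI : In N d := ⟨hd⟩
  have u1 : u ⊆ memR e := fun p => all_of M (fun p => p ∈ u → p ∈ memR e)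
    (fun p hp k => (d2 p ((H p hp).1 k)).2.1) p
  have u2 : u ∩ M = d := by
    ext p; rw [mem_inter]
    exact ⟨fun k => (H p k.2).1 k.1, fun k => ⟨(H p (d2 p k).1).2 k, (d2 p k).1⟩⟩
  have cM : ∀ a ∈ M, col u a ∈ M := fun a ha =>
    haveI : In (M : Set V) a := ⟨ha⟩
    memM M _
  have cpi : ∀ y ∈ Vs N (pi M γ.toZFSet).rank, ∀ b ∈ s, pi s b = (f y).toZFSet →
      pi M (col u b) = y := fun y hy b hb k => by
    rw [sh_pi_col hu u1 b (mem_inter.1 hb).1, u2, f2 y hy b hb k]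
  -- the two facts that are transferred from `M` to the universe
  have rk : ∀ c ∈ M, (∀ b ∈ M, b ∈ c → b ∈ e ∧ ∃ y ∈ Vs N (pi M γ.toZFSet).rank,
      pi s b = (f y).toZFSet) → (∀ b, b ∈ c → (col u b).rank < γ) ∧
      ∀ a, a ∈ c → ∀ b, b ∈ c → col u a = col u b → a = b := fun c hc k => by
    haveI : In (M : Set V) c := ⟨hc⟩
    refine ⟨all_of M (fun b => b ∈ c → (col u b).rank < γ) fun b hb j => ?_,
      all_of M (fun a => a ∈ c → ∀ b, b ∈ c → col u a = col u b → a = b) fun a ha j => ?_⟩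
    · obtain ⟨k1, y, hy, k2⟩ := k b hb j
      exact (pi_rank_lt (cM b hb) hγ).1
        (cpi y hy b (mem_inter.2 ⟨hb, k1⟩) k2 ▸ (mem_Vs.1 hy).2)
    · haveI : In (M : Set V) a := ⟨ha⟩
      refine all_of M (fun b => b ∈ c → col u a = col u b → a = b) fun b hb j' q => ?_
      obtain ⟨k1, x, hx, k2⟩ := k a ha j
      obtain ⟨k3, y, hy, k4⟩ := k b hb j'
      have a1 := mem_inter.2 ⟨ha, k1⟩
      have b1 := mem_inter.2 ⟨hb, k3⟩
      refine sh_inj so a1 b1 ?_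
      rw [k2, k4, ← cpi x hx a a1 k2, q, cpi y hy b b1 k4]
  refine ⟨u, hu, u1, fun a => all_of M (fun a => a ∈ N → Sm a → u ∩ a ∈ N)
    (fun a ha k1 k2 => ?_) a, fun t ht hr => ?_, (rk _ (memM M (dom u)) fun a ha k => ?_).2,
    (rk _ (memM M (ran u)) fun b hb k => ?_).1⟩
  · have e2 : u ∩ a = d ∩ a := by
      ext t; simp only [mem_inter]
      exact and_congr_left fun k => H t (sm_subset h.om1 ha k2 k)
    haveI : In N a := ⟨k1⟩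
    rw [e2]; exact memV_of N _
  · have h3 := mem_Vs.2 ⟨ht, hr⟩
    by_contra hn
    obtain ⟨k1, k2⟩ := rk e he fun b hb k => ⟨k, by
      have b1 := mem_inter.2 ⟨hb, k⟩
      have b2 := (sh_ord so b b1).toZFSet_rank_eq
      rcases lt_trichotomy (pi s b).rank (f t) with j | j | j
      · obtain ⟨y, hy, q⟩ := f1 t h3 _ j
        exact ⟨y, hy, by rw [q, b2]⟩
      · exact ⟨t, h3, by rw [← j, b2]⟩
      · obtain ⟨a, ha, -, q⟩ := (mem_pi b1).1 (b2 ▸ toZFSet_mem_toZFSet_iff.2 j)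
        exact absurd ⟨a, ha, cpi t h3 a ha q⟩ hn⟩
    exact absurd hκ (not_lt.2 ((hl.card_le h2).trans (card_le_of_isInj (isInj_lam
      (b := vonNeumann γ) (fun x hx => mem_vonNeumann.2 (k1 x hx)) fun x hx y hy => k2 x hx y hy))))
  · haveI : In (M : Set V) a := ⟨ha⟩
    obtain ⟨b, hb, j⟩ := ex_mem M (fun b => pair a b ∈ u) (mem_dom.1 k)
    obtain ⟨x, hx, -, -, q, -⟩ := f3 a b ((H _ (c1_pair ha hb)).1 j)
    exact ⟨(z4c_memR.1 (u1 j)).1, x, hx, q⟩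
  · haveI : In (M : Set V) b := ⟨hb⟩
    obtain ⟨a, ha, j⟩ := ex_mem M (fun a => pair a b ∈ u) (mem_ran.1 k)
    obtain ⟨-, -, y, hy, -, q⟩ := f3 a b ((H _ (c1_pair ha hb)).1 j)
    exact ⟨(z4c_memR.1 (u1 j)).2.1, y, hy, q⟩

theorem Ctx3.refl (h : Ctx3 N M z lam) (hl : Reg lam) (hM : lam.toZFSet ∈ M) (hγ : γ.toZFSet ∈ M)
    (hz : prod lam.toZFSet lam.toZFSet ⊆ z) (hκ : (vonNeumann γ).card < lam.card) {e S : V}
    (hS : Stat Set.univ S lam) (hS' : ∀ ζ : Ordinal.{0}, ζ.toZFSet ∈ S → SmCof N ζ)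
    (he : e ∈ M) (hE : Ecl N lam e) (hs : M ∩ e ∈ N) :
    Refl0 N (Kl N lam) M γ ∧ ∀ o < γ, Cod N lam e (M ∩ o.toZFSet) := by
  have mono : ∀ {X Y : V}, X ⊆ Y → memR X ⊆ memR Y := fun k p hp => by
    obtain ⟨a, ha, b, hb, rfl, j⟩ := mem_rel.1 hp
    exact z4c_memR.2 ⟨k ha, k hb, j⟩
  haveI : In (M : Set V) lam := ⟨hM⟩
  haveI : In (M : Set V) e := ⟨he⟩
  haveI : In N (M ∩ e) := ⟨hs⟩
  have sS : Sm (M ∩ e) := c1_sm h.sm fun _ k => (mem_inter.1 k).1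
  have mr : ∀ y ∈ M, y.rank < γ → (y ∈ Kl N lam ↔ pi M y ∈ N) := fun y hy hr => by
    haveI : In (M : Set V) y := ⟨hy⟩
    refine ⟨fun k => h.mem_of_cod hM he hs hy (k e hE), fun k =>
      all_of M (fun e' => Ecl N lam e' → Cod N lam e' y) fun e' he' hE' => ?_⟩
    haveI : In (M : Set V) e' := ⟨he'⟩
    obtain ⟨k1, -, k2, -⟩ := Ecl.inter hl hS hS' hE' hE
    have k3 : M ∩ (e' ∩ e) = e' ∩ (M ∩ e) := by
      ext t; simp only [mem_inter]; tauto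
    obtain ⟨u, hu, u1, u2, u3, -⟩ := h.univ_code hl hγ hz hκ (memM M (e' ∩ e)) k1 k2
      (k3 ▸ hE'.2.1 _ hs sS)
    obtain ⟨a, ha, q⟩ := u3 _ k ((pi_rank_lt hy hγ).2 hr)
    obtain ⟨ξ, -, rfl⟩ := mem_toZFSet_iff.1 (k1 (mem_inter.1 ha).2)
    haveI : In (M : Set V) u := ⟨hu⟩
    haveI : In (M : Set V) ξ := ⟨(mem_inter.1 ha).1⟩
    exact ⟨u, fun p hp => mono (fun t j => mem_insert_of_mem _ (mem_inter.1 j).1) (u1 hp), u2, ξ,
      (pi_inj (memM M _) hy q).symm⟩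
  obtain ⟨u, hu, u1, u2, u3, u4, u5⟩ := h.univ_code hl hγ hz hκ he hE.1 hE.2.2.1 hs
  haveI : In (M : Set V) u := ⟨hu⟩
  haveI : In N (u ∩ M) := ⟨h.inter_code hs u1 u2⟩
  haveI : In N lam := ⟨h.ord _ le_rfl⟩
  have nl : lam.toZFSet ∉ e := fun k => ZFSet.mem_irrefl _ (hE.1 k)
  have cM : ∀ a ∈ M ∩ e, col u a ∈ M := fun a ha =>
    haveI : In (M : Set V) a := ⟨(mem_inter.1 ha).1⟩
    memM M _
  have cpi : ∀ a ∈ M ∩ e, pi M (col u a) = col (u ∩ M) a := fun a ha =>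
    sh_pi_col hu u1 a (mem_inter.1 ha).1
  have cN : ∀ a ∈ M ∩ e, pi M (col u a) ∈ N := fun a ha => by
    haveI : In N a := ⟨IsZ.trans _ hs _ ha⟩
    rw [cpi a ha]; exact memV_of N _
  refine ⟨⟨hγ, h.om1, h.sm, mr, fun t ht hr => ?_, fun σ _ _ => ?_⟩, fun o ho => ?_⟩
  · obtain ⟨a, ha, q⟩ := u3 t ht hr
    exact ⟨_, cM a ha, q⟩
  · obtain ⟨ξ, hξ, x1⟩ : ∃ ξ ∈ N, ∀ b, σ ∈ col u b ↔ pair ξ b ∈ u := by
      by_cases k : ∃ b, σ ∈ col u b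
      · obtain ⟨b, k⟩ := k
        obtain ⟨a, k1, rfl⟩ := (sh_mem u1).1 k
        refine ⟨a, IsZ.trans _ (h.ord lam le_rfl) _ (hE.1 (z4c_memR.1 (u1 k1)).1), fun c =>
          ⟨fun j => ?_, fun j => (sh_mem u1).2 ⟨a, j, rfl⟩⟩⟩
        obtain ⟨a', j1, j2⟩ := (sh_mem u1).1 j
        rwa [← u4 a' (mem_dom.2 ⟨_, j1⟩) a (mem_dom.2 ⟨_, k1⟩) j2]
      · exact ⟨_, h.ord lam le_rfl, fun b => iff_of_false (fun j => k ⟨b, j⟩)
          fun j => nl (z4c_memR.1 (u1 j)).1⟩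
    haveI : In N ξ := ⟨hξ⟩
    have h1 : Sm (img (fun x => pair ξ x) (M ∩ e)) :=
      (z6a_injIn_img N hs _).mono (Set.subset_univ _) |>.trans sS
    haveI : In N (u ∩ img (fun x => pair ξ x) (M ∩ e)) := ⟨u2 _ (memV_of N _) h1⟩
    refine ⟨img (fun x => col (u ∩ M) x) (ZFSet.sep
      (fun x => pair ξ x ∈ u ∩ img (fun x => pair ξ x) (M ∩ e)) (M ∩ e)), memV_of N _,
      fun t => ?_⟩
    rw [mem_img]
    constructor
    · rintro ⟨b, hb, rfl⟩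
      obtain ⟨h2, h3⟩ := mem_sep.1 hb
      have h4 := (mem_inter.1 h3).1
      have h5 := u5 b (mem_ran.2 ⟨_, h4⟩)
      exact ⟨_, cM b h2, (mr _ (cM b h2) h5).2 (cN b h2), h5, (x1 b).2 h4, cpi b h2⟩
    · rintro ⟨y, hy, hK, hr, hσ, rfl⟩
      obtain ⟨b, hb, q⟩ := u3 _ ((mr y hy hr).1 hK) ((pi_rank_lt hy hγ).2 hr)
      exact ⟨b, mem_sep.2 ⟨hb, mem_inter.2 ⟨(x1 b).1 (pi_inj (cM b hb) hy q ▸ hσ),
        mem_img.2 ⟨_, hb, rfl⟩⟩⟩, (cpi b hb).symm.trans q⟩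
  · obtain ⟨o', ⟨o1, o2⟩, o3⟩ := (wellFounded_lt (α := Ordinal.{0})).has_min
      {β | o ≤ β ∧ β.toZFSet ∈ M} ⟨γ, ho.le, hγ⟩
    have o4 : o' ≤ γ := not_lt.1 (o3 γ ⟨ho.le, hγ⟩)
    have e1 : M ∩ o.toZFSet = M ∩ o'.toZFSet := by
      ext t; rw [mem_inter, mem_inter]
      refine and_congr_right fun k => ⟨fun j => toZFSet_monotone o1 j, fun j => ?_⟩
      obtain ⟨β, hβ, rfl⟩ := mem_toZFSet_iff.1 j
      exact toZFSet_mem_toZFSet_iff.2 (lt_of_not_ge fun i => o3 β ⟨i, k⟩ hβ)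
    haveI : In N (pi M o'.toZFSet) := 
      ⟨by rw [pi_ord o2]; exact h.ord _ ((tg_pi h.sm o2).trans hl.omega2).le⟩
    obtain ⟨X, hX⟩ : ∃ X, X = img (fun x => pair x lam.toZFSet)
      (ZFSet.sep (fun x => col (u ∩ M) x ∈ pi M o'.toZFSet) (M ∩ e)) := ⟨_, rfl⟩
    haveI : In N X := ⟨by rw [hX]; exact memV_of N _⟩
    have x1 : ∀ a b, pair a b ∈ X ↔ b = lam.toZFSet ∧ a ∈ M ∩ e ∧ col u a ∈ o'.toZFSet :=
      fun a b => by
        rw [hX, mem_img]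
        constructor
        · rintro ⟨x, hx, q⟩
          obtain ⟨rfl, rfl⟩ := pair_injective.eq_iff.1 q
          obtain ⟨k1, k2⟩ := mem_sep.1 hx
          exact ⟨rfl, k1, (pi_mem_iff (cM _ k1) o2).1 (cpi _ k1 ▸ k2)⟩
        · rintro ⟨rfl, k1, k2⟩
          exact ⟨a, mem_sep.2 ⟨k1, cpi _ k1 ▸ (pi_mem_iff (cM _ k1) o2).2 k2⟩, rfl⟩
    have x2 : u ∪ X ⊆ memR (insert lam.toZFSet e) := fun p hp => by
      rcases mem_union.1 hp with k | k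
      · exact mono (fun t j => mem_insert_of_mem _ j) (u1 k)
      · obtain ⟨x, hx, rfl⟩ := mem_img.1 (hX ▸ k)
        have j := (mem_inter.1 (mem_sep.1 hx).1).2
        exact z4c_memR.2 ⟨mem_insert_of_mem _ j, mem_insert _ _, hE.1 j⟩
    have x3 : ∀ a : V, a ∈ e → col (u ∪ X) a = col u a := fun a => by
      induction a using mem_wf.induction with
      | _ a ih =>
        intro ha
        ext t
        rw [sh_mem x2, sh_mem u1]
        refine exists_congr fun b => ⟨fun k => ?_, fun k => ?_⟩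
        · have j := (mem_union.1 k.1).resolve_right fun j => nl (((x1 _ _).1 j).1 ▸ ha)
          have j' := z4c_memR.1 (u1 j)
          exact ⟨j, ih b j'.2.2 j'.1 ▸ k.2⟩
        · have j' := z4c_memR.1 (u1 k.1)
          exact ⟨mem_union.2 (Or.inl k.1), (ih b j'.2.2 j'.1).trans k.2⟩
    refine ⟨u ∪ X, x2, fun a ha k => ?_, lam, ?_⟩
    · haveI : In N a := ⟨ha⟩
      haveI : In N (u ∩ a) := ⟨u2 a ha k⟩
      have : (u ∪ X) ∩ a = (u ∩ a) ∪ (X ∩ a) := by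
        ext t; simp only [mem_inter, mem_union]; tauto
      rw [this]; exact memV_of N _
    · ext t
      rw [e1, sh_mem x2, mem_inter]
      constructor
      · rintro ⟨k1, k2⟩
        obtain ⟨β, hβ, rfl⟩ := mem_toZFSet_iff.1 k2
        obtain ⟨a, ha, q⟩ := u3 (pi M β.toZFSet) 
          (by rw [pi_ord k1]; exact h.ord _ ((tg_pi h.sm k1).trans hl.omega2).le)
          ((pi_rank_lt k1 hγ).2 (by rw [rank_toZFSet]; exact hβ.trans_le o4))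
        have q' := pi_inj (cM a ha) k1 q
        exact ⟨a, mem_union.2 (Or.inr ((x1 _ _).2 ⟨rfl, ha, q' ▸ k2⟩)),
          (x3 a (mem_inter.1 ha).2).trans q'⟩
      · rintro ⟨a, k, rfl⟩
        have j := (x1 _ _).1 ((mem_union.1 k).resolve_left fun j => nl (z4c_memR.1 (u1 j)).2.1)
        rw [x3 a (mem_inter.1 j.2.1).2]
        exact ⟨cM a j.2.1, j.2.2⟩

end Pool.Agent.Lib.MP_f00570_lc
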