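import Pool.Agent.Lib.MP_f00570_lc.T.F
import Pool.Agent.Lib.MP_f00570_lc.T.H
import Pool.Agent.Lib.MP_f00570_lc.T.J
import Pool.Agent.Lib.MP_f00570_lc.A4

/-!
# Gluing the local models; the main theorem in local form
-/

namespace Pool.Agent.Lib.MP_f00570_lc

open Pool.Agent.Lib.MP_f9eb18_lc Pool.Agent.Lib.MP_f9eb18_lc.W Ordinal ZFSet
set_option linter.style.haveILetI false
set_option linter.unusedVariables false

theorem ti_skolem (l : List V) : ∃ op : List V → Set V, (∀ k, (op k).Countable) ∧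
    ∀ M : V, Closed op (M : Set V) → ES M ∧ ∀ x ∈ l, x ∈ M := by
  obtain ⟨op, h1, h2⟩ := exists_skolem (N := Set.univ)
    ⟨zfc_univ, fun _ => trivial, .eq 0 0, fun _ => ∅, fun x => iff_of_true trivial rfl⟩ l
  exact ⟨op, h1, fun M hM => let ⟨a, _, b⟩ := h2 M hM; ⟨a, b⟩⟩

theorem ti_refl {N M z : V} [ES M] {lam γ : Ordinal.{0}} {op : List V → Set V} (hN : GdM N lam)
    (hNM : N ∈ M) (hG : GSet z op M) (hl : Reg lam) (hM : lam.toZFSet ∈ M) (hγ : γ.toZFSet ∈ M)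
    (hz : lam.toZFSet ⊆ z) (hz2 : prod lam.toZFSet lam.toZFSet ⊆ z)
    (hκ : (vonNeumann γ).card < lam.card) : Refl0 (N : Set V) (Kl (N : Set V) lam) M γ := by
  haveI := hN.1
  haveI : In (M : Set V) N := ⟨hNM⟩
  have h := hN.ctx hNM hG
  obtain ⟨⟨S, hS, hS'⟩, Z, hZ, h1, h2⟩ := h.cofinal hN.2.2.2 hl hM hz
  obtain ⟨e, he, hE, hs⟩ := h.carrier hl hM hz hz2 hZ h1 h2
  exact (h.refl hl hM hγ hz2 hκ hS hS' he hE hs).1

theorem ti_coherent (hG : GM) {N N' : V} {γ lam lam' : Ordinal.{0}} (hN : GdM N lam)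
    (hN' : GdM N' lam') (hA : Vs (N : Set V) (ω_ 2) = Vs (N' : Set V) (ω_ 2)) (hl : Reg lam)
    (hl' : Reg lam') (h : (vonNeumann γ).card < lam.card) (h' : (vonNeumann γ).card < lam'.card)
    {y : V} (hy : y.rank < γ) (hK : y ∈ Kl (N : Set V) lam) : y ∈ Kl (N' : Set V) lam' := by
  obtain ⟨op, h1, h2⟩ := ti_skolem [lam.toZFSet, lam'.toZFSet, γ.toZFSet, y, N, N']
  obtain ⟨M, hM⟩ := hG ((lam.toZFSet ∪ prod lam.toZFSet lam.toZFSet) ∪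
    (lam'.toZFSet ∪ prod lam'.toZFSet lam'.toZFSet)) op h1
  obtain ⟨i1, h3⟩ := h2 M hM.cl
  have R := ti_refl hN (h3 _ (by simp)) hM hl (h3 _ (by simp)) (h3 _ (by simp))
    (fun _ k => si_left _ _ (si_left _ _ k)) (fun _ k => si_left _ _ (si_right _ _ k)) h
  have R' := ti_refl hN' (h3 _ (by simp)) hM hl' (h3 _ (by simp)) (h3 _ (by simp))
    (fun _ k => si_right _ _ (si_left _ _ k)) (fun _ k => si_right _ _ (si_right _ _ k)) h'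
  have hy' : y ∈ M := h3 _ (by simp)
  exact (R'.mr y hy' hy).2 (mem_Vs.1 (hA ▸ mem_Vs.2 ⟨(R.mr y hy' hy).1 hK,
    ((pi_rank_lt hy' R.γM).2 hy).trans (tg_pi R.sm R.γM)⟩)).1

/-- `A` is the part below `ω₂` of good models of unbounded height -/
def Unb (A : V) : Prop :=
  ∀ α : Ordinal.{0}, ∃ lam, α < lam ∧ Reg lam ∧ ∃ N : V, GdM N lam ∧ Vs (N : Set V) (ω_ 2) = A

theorem ka_iff (hG : GM) {A N : V} (hU : Unb A) {γ lam : Ordinal.{0}} (hN : GdM N lam)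
    (hA : Vs (N : Set V) (ω_ 2) = A) (hl : Reg lam) (h : (vonNeumann γ).card < lam.card) {y : V}
    (hy : y.rank < γ) : y ∈ KA A ↔ y ∈ Kl (N : Set V) lam := by
  refine ⟨fun ⟨α, hα⟩ => ?_, fun hK => ⟨(vonNeumann γ).card.ord, fun lam' h1 h2 N' h3 h4 =>
    ti_coherent hG hN h3 (hA.trans h4.symm) hl h2 h (si_card h2 h1) hy hK⟩⟩
  obtain ⟨lam', h1, h2, N', h3, h4⟩ := hU (max α (vonNeumann γ).card.ord)
  exact ti_coherent hG h3 hN (h4.trans hA.symm) h2 hl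
    (si_card h2 ((le_max_right _ _).trans_lt h1)) h hy
    (hα lam' ((le_max_left _ _).trans_lt h1) h2 N' h3 h4)

theorem ka_trans (A : V) : ∀ x ∈ KA A, ∀ y ∈ x, y ∈ KA A := by
  rintro x ⟨α, hα⟩ y hy
  refine ⟨α, fun lam h1 h2 N h3 h4 e he => ?_⟩
  obtain ⟨E, k1, k2, ξ, rfl⟩ := hα lam h1 h2 N h3 h4 e he
  obtain ⟨a, j, rfl⟩ := c1_col hy
  rcases mem_insert_iff.1 (z4c_memR.1 (k1 j)).1 with rfl | i
  · exact ⟨E, k1, k2, lam, rfl⟩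
  · obtain ⟨ζ, -, rfl⟩ := mem_toZFSet_iff.1 (he.1 i)
    exact ⟨E, k1, k2, ζ, rfl⟩

theorem ti_carrier (hG : GM) {N : V} {lam : Ordinal.{0}} (hN : GdM N lam) (hl : Reg lam) :
    ∃ e : V, Ecl (N : Set V) lam e ∧ ∀ l : List V, ∃ (M : V) (_ : ES M), (∀ x ∈ l, x ∈ M) ∧
      e ∈ M ∧ M ∩ e ∈ N ∧
        Ctx3 (N : Set V) M (lam.toZFSet ∪ prod lam.toZFSet lam.toZFSet) lam := by
  haveI := hN.1
  by_contra hn
  have h0 : ∀ e : V, ∃ l : List V, Ecl (N : Set V) lam e →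
      ¬ ∃ (M : V) (_ : ES M), (∀ x ∈ l, x ∈ M) ∧ e ∈ M ∧ M ∩ e ∈ N ∧
        Ctx3 (N : Set V) M (lam.toZFSet ∪ prod lam.toZFSet lam.toZFSet) lam := fun e => by
    by_contra k
    exact hn ⟨e, by_contra fun k1 => k ⟨[], fun k2 => absurd k2 k1⟩, fun l =>
      by_contra fun k1 => k ⟨l, fun _ => k1⟩⟩
  choose L hL using h0
  obtain ⟨op, h1, h2⟩ := ti_skolem [lam.toZFSet, N]
  obtain ⟨M, hM⟩ := hG (lam.toZFSet ∪ prod lam.toZFSet lam.toZFSet)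
    (fun k => op k ∪ {x | x ∈ L (k.headD ∅)})
    fun k => (h1 k).union (List.finite_toSet _).countable
  obtain ⟨i1, h3⟩ := h2 M fun k hk x hx => hM.cl k hk (Or.inl hx)
  haveI : In (M : Set V) N := ⟨h3 _ (by simp)⟩
  have c := hN.ctx (h3 _ (by simp)) hM
  have hl' : lam.toZFSet ∈ M := h3 _ (by simp)
  obtain ⟨-, Z, hZ, z1, z2⟩ := c.cofinal hN.2.2.2 hl hl' (si_left _ _)
  obtain ⟨e, he, hE, hs⟩ := c.carrier hl hl' (si_left _ _) (si_right _ _) hZ z1 z2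
  exact hL e hE ⟨M, i1, fun x hx => hM.cl [e] (by simpa using he) (Or.inr hx), he, hs, c⟩

theorem hasRefl3 (hG : GM) {A : V} (hU : Unb A) : HasRefl3 (KA A) := by
  intro l γ
  obtain ⟨lam, h0, hl, N, hN, hA⟩ := hU (vonNeumann γ).card.ord
  haveI := hN.1
  have hκ := si_card hl h0
  have kk : ∀ y : V, y.rank < γ → (y ∈ KA A ↔ y ∈ Kl (N : Set V) lam) := fun y =>
    ka_iff hG hU hN hA hl hκ
  obtain ⟨e, hE, H⟩ := ti_carrier hG hN hl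
  obtain ⟨M, i1, h1, he, hs, c⟩ :=
    H (lam.toZFSet :: γ.toZFSet :: N :: A :: (ω_ 2 : Ordinal.{0}).toZFSet :: l)
  have hM : lam.toZFSet ∈ M := h1 _ (by simp)
  haveI : In (M : Set V) N := ⟨h1 _ (by simp)⟩
  haveI : In (M : Set V) A := ⟨h1 _ (by simp)⟩
  haveI : In (M : Set V) (ω_ 2 : Ordinal.{0}) := ⟨h1 _ (by simp)⟩
  obtain ⟨⟨S, hS, hS'⟩, -⟩ := c.cofinal hN.2.2.2 hl hM (si_left _ _)
  obtain ⟨R, hc⟩ := c.refl hl hM (h1 _ (by simp)) (si_right _ _) hκ hS hS' he hE hs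
  refine ⟨(N : Set V), hN.1, M, i1, uc_ka, fun o ho => c.ord o (ho.trans hl.omega2).le,
    fun x hx => h1 x (by simp [hx]), ⟨R.γM, R.om1, R.sm,
    fun y hy k => (kk y k).trans (R.mr y hy k), R.onto, fun σ h2 h3 => ?_⟩, fun o ho => ?_⟩
  · obtain ⟨U, hU, h4⟩ := R.plus σ ((kk σ h3).1 h2) h3
    refine ⟨U, hU, fun t => (h4 t).trans ⟨?_, ?_⟩⟩
    · exact fun ⟨y, a1, a2, a3, a4⟩ => ⟨y, a1, (kk y a3).2 a2, a3, a4⟩
    · exact fun ⟨y, a1, a2, a3, a4⟩ => ⟨y, a1, (kk y a3).1 a2, a3, a4⟩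
  · have hr : (M ∩ o.toZFSet : V).rank < γ :=
      ((rank_mono fun _ k => (mem_inter.1 k).2).trans (rank_toZFSet o).le).trans_lt ho
    obtain ⟨M1, j1, k1, ke, ks, c1⟩ := H [lam.toZFSet, γ.toZFSet, N, M ∩ o.toZFSet]
    haveI : In (M1 : Set V) N := ⟨k1 _ (by simp)⟩
    have hM1 : lam.toZFSet ∈ M1 := k1 _ (by simp)
    have hy : M ∩ o.toZFSet ∈ M1 := k1 _ (by simp)
    exact (kk _ hr).2 (((c1.refl hl hM1 (k1 _ (by simp)) (si_right _ _) hκ hS hS' ke hE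
      ks).1.mr _ hy hr).2 (c1.mem_of_cod hM1 ke ks hy (hc o ho)))

theorem exists_unb (h : ∀ lam : Ordinal.{0}, ∃ N : V, GdM N lam) : ∃ A, Unb A := by
  by_contra hn
  have h0 : ∀ A : powerset (vonNeumann (ω_ 2)), ∃ α : Ordinal.{0}, ∀ lam, α < lam → Reg lam →
      ∀ N : V, GdM N lam → Vs (N : Set V) (ω_ 2) ≠ A.1 := fun A => by
    by_contra k
    refine hn ⟨A.1, fun α => ?_⟩
    by_contra k1
    exact k ⟨α, fun lam a b N c d => k1 ⟨lam, a, b, N, c, d⟩⟩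
  choose f hf using h0
  obtain ⟨lam, h1, h2⟩ := exists_reg (iSup f)
  obtain ⟨N, hN⟩ := h lam
  exact hf ⟨_, mem_powerset.2 fun x hx => mem_vonNeumann.2 (mem_Vs.1 hx).2⟩ lam
    ((Ordinal.le_iSup f _).trans_lt h1) h2 N hN rfl

theorem exists_gdM {N : Set V} [IsZFC N] {lam : Ordinal.{0}} (hl : (lam + 1).toZFSet ∈ N)
    (hT : Trace N) (hP : ∀ η < lam + 1, η.cof = Cardinal.aleph 1 → PresAt N η) :
    ∃ N' : V, GdM N' lam := by
  obtain ⟨β, hβ, H⟩ := exists_reflect N (lam + 1)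
  have m : ∀ {x : V}, x ∈ N → x ⊆ lam.toZFSet → x ∈ Vs N β := fun h1 h2 => mem_Vs.2 ⟨h1,
    ((rank_mono h2).trans_eq (rank_toZFSet _)).trans_lt ((lt_add_one lam).trans hβ)⟩
  have hlam := IsZ.ord_mem_of_le N hl (lt_add_one lam).le
  refine ⟨Vs N β, Elem.isZFC_left (j := fun x => x) (M' := N)
    ⟨fun x hx => (mem_Vs.1 hx).1, H⟩ (fun x hx y hy => mem_Vs.2
      ⟨IsZ.trans x (mem_Vs.1 hx).1 y hy, (rank_lt_of_mem hy).trans (mem_Vs.1 hx).2⟩)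
    ⟨_, m hlam subset_rfl⟩, m hlam subset_rfl, fun x hx => ?_, fun η hη h1 h2 => ?_⟩
  · refine ⟨ZFSet.sep (fun b => ∃ d ∈ N, b = d ∩ x) (powerset x), ?_, fun d hd => mem_sep.2
      ⟨mem_powerset.2 fun t ht => (mem_inter.1 ht).2, d, (mem_Vs.1 hd).1, rfl⟩⟩
    have h4 : Cardinal.mk (ZFSet.sep (fun b => ∃ d ∈ N, b = d ∩ x) (powerset x)) ≤
        Cardinal.mk {b : V // ∃ d ∈ N, b = d ∩ x} :=
      Cardinal.mk_le_of_injective (f := fun b => ⟨b.1, (mem_sep.1 b.2).2⟩)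
        fun a b e => Subtype.ext (Subtype.mk.inj e)
    have h5 := h4.trans (hT x (ctbl_univ.1 hx))
    rw [cardinalMk_coe_sort] at h5
    rw [sm_iff]
    simpa using h5
  · obtain ⟨S, s1, s2, s3, s4⟩ := hP η (Order.lt_add_one_iff.2 hη) (tg_cof1 h1 h2)
    have sub : ∀ {c : V}, c ⊆ η.toZFSet → c ⊆ lam.toZFSet := fun k t ht =>
      toZFSet_monotone hη (k ht)
    refine ⟨S, m s1 (sub fun x hx => ?_), fun x hx => ?_, fun c hc => s3 c (mem_Vs.1 hc).1,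
      fun T hT' k1 k2 => s4 T (mem_Vs.1 hT').1 k1 fun c hc k => k2 c (m hc (sub k.1)) k⟩
    · obtain ⟨ζ, k, rfl, -⟩ := s2 x hx
      exact toZFSet_mem_toZFSet_iff.2 k
    · obtain ⟨ζ, k, rfl, b, b1, b2, b3⟩ := s2 x hx
      haveI : In N b := ⟨b1⟩
      haveI : In N lam := ⟨hlam⟩
      exact ⟨ζ, k, rfl, b ∩ lam.toZFSet, m (memV_of N _) fun t ht => (mem_inter.1 ht).2,
        (card_mono fun t ht => (mem_inter.1 ht).1).trans b2, b3.mono fun ξ j i =>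
          mem_inter.2 ⟨i, toZFSet_mem_toZFSet_iff.2 ((j.trans k).trans_le hη)⟩⟩

theorem main5 (hP : PFA) (h : ∀ lam : Ordinal.{0}, ∃ N : Set V, IsZFC N ∧ lam.toZFSet ∈ N ∧
    Trace N ∧ ∀ η < lam, η.cof = Cardinal.aleph 1 → PresAt N η) :
    ∃ K : Set V, InnerModel K ∧ Supercompact K (ω_ 2) := by
  obtain ⟨A, hA⟩ := exists_unb fun lam => by
    obtain ⟨N, _, h1, h2, h3⟩ := h (lam + 1)
    exact exists_gdM h1 h2 h3
  have R := hasRefl3 (gm_of_pfa hP) hA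
  haveI := R.zfc (ka_trans A)
  refine ⟨KA A, ⟨this, R.ord, ?_⟩, R.supercompact⟩
  haveI : In Set.univ A := ⟨trivial⟩
  haveI : In Set.univ (ω_ 2 : Ordinal.{0}) := ⟨trivial⟩
  obtain ⟨φ, c, -, H⟩ := (uc_ka (C := Set.univ) (A := A)).gr.out
  obtain ⟨ψ, hψ⟩ := sat_sw Set.univ φ c (fun _ => ∅) 1
  refine ⟨ψ, mrg (fun _ => ∅) c, fun y => ?_⟩
  rw [← pre_one, ← hψ, pre_one]
  exact H _ rfl (cons y fun _ => ∅) fun _ => trivial

end Pool.Agent.Lib.MP_f00570_lc
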